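import Mathlib

/-!
# The algebra `H_par` of a Hopf algebra `H`
-/

namespace Pool.Agent.MP_57c94c_al

universe u v

/-- The Sweedler expression `f(x₍₁₎) g(x₍₂₎)` in the tensor algebra `T(H)`, for linear maps
`f g : H → T(H)`. -/
noncomputable def sweedler (k : Type u) (H : Type v) [Field k] [Ring H] [HopfAlgebra k H]
    (f g : H →ₗ[k] TensorAlgebra k H) (x : H) : TensorAlgebra k H :=
  LinearMap.mul' k (TensorAlgebra k H) (TensorProduct.map f g (Coalgebra.comul x))

/-- The defining relations of `H_par`, as pairs of elements of `T(H)` to be identified: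
`1_H = 1_{T(H)}`, `h ⊗ x₍₁₎ ⊗ S(x₍₂₎) = h x₍₁₎ ⊗ S(x₍₂₎)` and
`h₍₁₎ ⊗ S(h₍₂₎) ⊗ x = h₍₁₎ ⊗ S(h₍₂₎) x`. -/
inductive ParRel (k : Type u) (H : Type v) [Field k] [Ring H] [HopfAlgebra k H] :
    TensorAlgebra k H → TensorAlgebra k H → Prop
  | unit : ParRel k H (TensorAlgebra.ι k (1 : H)) 1
  | left (h x : H) : ParRel k H
      (TensorAlgebra.ι k h *
        sweedler k H (TensorAlgebra.ι k) (TensorAlgebra.ι k ∘ₗ HopfAlgebra.antipode k) x)
      (sweedler k H (TensorAlgebra.ι k ∘ₗ LinearMap.mulLeft k h)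
        (TensorAlgebra.ι k ∘ₗ HopfAlgebra.antipode k) x)
  | right (h x : H) : ParRel k H
      (sweedler k H (TensorAlgebra.ι k) (TensorAlgebra.ι k ∘ₗ HopfAlgebra.antipode k) h *
        TensorAlgebra.ι k x)
      (sweedler k H (TensorAlgebra.ι k)
        (TensorAlgebra.ι k ∘ₗ LinearMap.mulRight k x ∘ₗ HopfAlgebra.antipode k) h)

/-- `H_par = T(H) / I`, the quotient of the tensor algebra by the two-sided ideal generated by
the differences of the pairs in `ParRel`. -/
abbrev HPar (k : Type u) (H : Type v) [Field k] [Ring H] [HopfAlgebra k H] : Type (max u v) :=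
  RingQuot (ParRel k H)

end Pool.Agent.MP_57c94c_al
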