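import Mathlib

/-!
# A concrete model of `SL(2,5)` and the sum of its elements of odd order
-/

namespace Pool.Agent.MP_57c94c_al

@[ext]
structure SL25 where
  a : ZMod 5
  b : ZMod 5
  c : ZMod 5
  d : ZMod 5
  det : a * d - b * c = 1

namespace SL25

instance : DecidableEq SL25 := fun x y =>
  decidable_of_iff (x.a = y.a ∧ x.b = y.b ∧ x.c = y.c ∧ x.d = y.d) SL25.ext_iff.symm

instance : Mul SL25 := ⟨fun x y =>
  ⟨x.a * y.a + x.b * y.c, x.a * y.b + x.b * y.d, x.c * y.a + x.d * y.c, x.c * y.b + x.d * y.d, by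
    have h1 := x.det
    have h2 := y.det
    linear_combination (y.a * y.d - y.b * y.c) * h1 + h2⟩⟩

instance : One SL25 := ⟨⟨1, 0, 0, 1, by ring⟩⟩

instance : Inv SL25 := ⟨fun x => ⟨x.d, -x.b, -x.c, x.a, by linear_combination x.det⟩⟩

theorem mul_a (x y : SL25) : (x * y).a = x.a * y.a + x.b * y.c := rfl
theorem mul_b (x y : SL25) : (x * y).b = x.a * y.b + x.b * y.d := rfl
theorem mul_c (x y : SL25) : (x * y).c = x.c * y.a + x.d * y.c := rfl
theorem mul_d (x y : SL25) : (x * y).d = x.c * y.b + x.d * y.d := rfl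
theorem one_a : (1 : SL25).a = 1 := rfl
theorem one_b : (1 : SL25).b = 0 := rfl
theorem one_c : (1 : SL25).c = 0 := rfl
theorem one_d : (1 : SL25).d = 1 := rfl
theorem inv_a (x : SL25) : (x⁻¹).a = x.d := rfl
theorem inv_b (x : SL25) : (x⁻¹).b = -x.b := rfl
theorem inv_c (x : SL25) : (x⁻¹).c = -x.c := rfl
theorem inv_d (x : SL25) : (x⁻¹).d = x.a := rfl

instance : Group SL25 :=
  Group.ofLeftAxioms
    (fun x y z => by ext <;> simp only [mul_a, mul_b, mul_c, mul_d] <;> ring)
    (fun x => by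
      ext <;> simp only [mul_a, mul_b, mul_c, mul_d, one_a, one_b, one_c, one_d] <;> ring)
    (fun x => by
      have h := x.det
      ext <;> simp only [mul_a, mul_b, mul_c, mul_d, one_a, one_b, one_c, one_d, inv_a, inv_b,
        inv_c, inv_d]
      · linear_combination h
      · ring
      · ring
      · linear_combination h)

def equivSub : {x : ZMod 5 × ZMod 5 × ZMod 5 × ZMod 5 // x.1 * x.2.2.2 - x.2.1 * x.2.2.1 = 1} ≃
    SL25 where
  toFun x := ⟨x.1.1, x.1.2.1, x.1.2.2.1, x.1.2.2.2, x.2⟩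
  invFun x := ⟨(x.a, x.b, x.c, x.d), x.det⟩
  left_inv _ := rfl
  right_inv _ := rfl

instance : Fintype SL25 := Fintype.ofEquiv _ equivSub

/-- the elements of odd order: trace `2` or `-1` -/
def IsOdd (x : SL25) : Prop := x.a + x.d = 2 ∨ x.a + x.d = 4

instance : DecidablePred IsOdd := fun _ => inferInstanceAs (Decidable (_ ∨ _))

def z : SL25 := ⟨4, 0, 0, 4, by decide⟩
def u : SL25 := ⟨0, 1, 4, 4, by decide⟩
def v : SL25 := ⟨0, 4, 1, 2, by decide⟩

theorem z_mul_z : z * z = 1 := by decide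
theorem z_comm (x : SL25) : x * z = z * x := by
  ext <;> simp only [mul_a, mul_b, mul_c, mul_d, z] <;> ring
theorem u_cube : u * u * u = 1 := by decide
theorem uvuv : u * v * u * v = z := by decide
theorem odd_u : IsOdd u := by decide
theorem odd_v : IsOdd v := by decide
theorem u_ne : u ≠ 1 ∧ u ≠ z := by decide
theorem v_ne : v ≠ 1 ∧ v ≠ z := by decide
theorem not_odd_uz : ¬ IsOdd (u * z) := by decide
theorem not_odd_vz : ¬ IsOdd (v * z) := by decide

theorem odd_conj (x y : SL25) : IsOdd (y * x * y⁻¹) ↔ IsOdd x := by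
  have h : (y * x * y⁻¹).a + (y * x * y⁻¹).d = x.a + x.d := by
    have := y.det
    simp only [mul_a, mul_b, mul_c, mul_d, inv_a, inv_b, inv_c, inv_d]
    linear_combination (x.a + x.d) * this
  unfold IsOdd
  rw [h]

theorem count_odd : ∀ g : SL25,
    (Finset.univ.filter fun x : SL25 => IsOdd x ∧ IsOdd (x⁻¹ * g)).card % 2 =
      if IsOdd g then 1 else 0 := by
  decide +kernel

end SL25

end Pool.Agent.MP_57c94c_al
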